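import Mathlib
import Pool.Agent.K3h13.AD.OB

set_option autoImplicit false

/-!
# The Lenstra-Pomerance-Wagstaff law with error term for almost every `a`-adic amplitude

Let `a > 1` be an integer and let `α` be an `a`-adic integer, given by its sequence of base-`a`
digits `d 0, d 1, …`, least significant first.  For an integer `b` prime to `a` with `|b| < a` and a
prime `p` let `W a b d p` be the `p`-rough part (the product, with multiplicity, of the prime
factors larger than `p`) of the residue of `b ^ p α` modulo `a ^ p` in `[0, a ^ p)`, and let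
`N a b d n` be the number of primes `p ≤ n` with `W a b d p` prime.  At the amplitude
`α = -1 / (a - b)` the residue is `(a ^ p - b ^ p) / (a - b)` itself, and `N a b d n` is, up to a
bounded error, the counting function of the conjecture.  We prove that for almost every sequence of
digits (independent and uniform, that is, for Haar measure on the `a`-adic integers) whose first
digit is prime to `a`, simultaneously for all `b`,
`N a b d n = (e ^ γ / log a) log n + O((log n) ^ (1/2) (log log n) ^ (5/2))`.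
-/

namespace Pool.Agent.Results.MP_de9007_nt.AdicAmplitudes

open Filter Topology MeasureTheory Asymptotics

/-- The product, with multiplicity, of the prime factors of `m` that are larger than `p`. -/
def roughPart (p m : ℕ) : ℕ := (m.primeFactorsList.filter (fun r => p < r)).prod

/-- The integer with the low digits `d 0, …, d (n - 1)` in base `a`, that is, the residue modulo
`a ^ n` of the `a`-adic integer with the digits `d`. -/
def low (a n : ℕ) (d : ℕ → Fin a) : ℕ := ∑ i ∈ Finset.range n, (d i : ℕ) * a ^ i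

/-- The distribution of independent digits, each uniform on `{0, …, a - 1}`. -/
noncomputable def haar (a : ℕ) [NeZero a] : Measure (ℕ → Fin a) :=
  Measure.infinitePi (fun _ : ℕ => ProbabilityTheory.uniformOn (Set.univ : Set (Fin a)))

/-- The residue in `[0, a ^ p)` modulo `a ^ p` of `b ^ p α`, where `α` has the digits `d`. -/
def residue (a : ℕ) (b : ℤ) (d : ℕ → Fin a) (p : ℕ) : ℕ :=
  ((b ^ p * low a p d) % (a : ℤ) ^ p).toNat

/-- The `p`-rough part of the residue. -/
def W (a : ℕ) (b : ℤ) (d : ℕ → Fin a) (p : ℕ) : ℕ := roughPart p (residue a b d p)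

open Classical in
/-- The number of primes `p ≤ n` for which `W a b d p` is prime. -/
noncomputable def N (a : ℕ) (b : ℤ) (d : ℕ → Fin a) (n : ℕ) : ℕ :=
  ((Finset.range (n + 1)).filter (fun p => p.Prime ∧ (W a b d p).Prime)).card

open Classical in
/-- The number of primes `p ≤ n` for which `(a ^ p - b ^ p) / (a - b)` is prime. -/
noncomputable def count (a : ℕ) (b : ℤ) (n : ℕ) : ℕ :=
  ((Finset.range (n + 1)).filter
    (fun p => p.Prime ∧ Prime (((a : ℤ) ^ p - b ^ p) / ((a : ℤ) - b)))).card

/-- The digits `d` are those of the `a`-adic number `-1 / (a - b)`. -/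
def Special (a : ℕ) (b : ℤ) (d : ℕ → Fin a) : Prop :=
  ∀ n : ℕ, (a : ℤ) ^ n ∣ ((a : ℤ) - b) * low a n d + 1

lemma card_inst {s : Finset ℕ} {P Q : ℕ → Prop} (hP : DecidablePred P) (hQ : DecidablePred Q)
    (h : ∀ x, P x ↔ Q x) : (@Finset.filter _ P hP s).card = (@Finset.filter _ Q hQ s).card := by
  have e : P = Q := funext fun x => propext (h x)
  subst e
  congr

lemma N_eq (a : ℕ) (b : ℤ) (d : ℕ → Fin a) (n : ℕ) : N a b d n =
    Pool.Agent.TH888.R.cS Set.univ
      (fun p => Pool.Agent.K3h13.AD.rs a b (Pool.Agent.W66L.dsum a p d) p) n := by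
  unfold N Pool.Agent.TH888.R.cS
  refine card_inst _ _ fun p => ?_
  constructor
  · rintro ⟨h7, h8⟩
    exact ⟨h7, Set.mem_univ _, h8⟩
  · rintro ⟨h7, _, h8⟩
    exact ⟨h7, h8⟩

lemma coprime_sub {a : ℕ} {b : ℤ} (hab : IsCoprime (a : ℤ) b) :
    IsCoprime (a : ℤ) ((a : ℤ) - b) := by
  have h1 : IsCoprime (a : ℤ) (-b) := hab.neg_right
  have h2 := h1.add_mul_left_right 1
  have e : -b + (a : ℤ) * 1 = (a : ℤ) - b := by ring
  rwa [e] at h2

lemma special_value {a : ℕ} {b : ℤ} (ha : 1 < a) (hb : |b| < a) (hab : IsCoprime (a : ℤ) b)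
    {d : ℕ → Fin a} (hd : Special a b d) (p : ℕ) :
    (residue a b d p : ℤ) = ∑ i ∈ Finset.range p, (a : ℤ) ^ i * b ^ (p - 1 - i) :=
  Pool.Agent.K3h13.AD.special_value ha hb hab (hd p)

lemma first_digit {a : ℕ} {b : ℤ} {d : ℕ → Fin a} (hd : Special a b d) :
    (d 0 : ℕ).Coprime a := by
  have h := hd 1
  unfold low at h
  rw [Finset.sum_range_one, pow_zero, mul_one, pow_one] at h
  have h2 : IsCoprime ((d 0 : ℕ) : ℤ) (a : ℤ) := by
    obtain ⟨k, hk⟩ := h
    exact ⟨-((a : ℤ) - b), k, by linear_combination -hk⟩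
  exact Nat.isCoprime_iff_coprime.1 h2

lemma card_le_of_eventually {s t : ℕ → Prop} [DecidablePred s] [DecidablePred t] (D : ℕ)
    (h : ∀ p, D < p → s p → t p) (n : ℕ) :
    (((Finset.range (n + 1)).filter s).card : ℝ) ≤ (((Finset.range (n + 1)).filter t).card : ℝ) +
      (D + 1 : ℕ) := by
  have h1 : (Finset.range (n + 1)).filter s ⊆ (Finset.range (n + 1)).filter t ∪ Finset.range (D + 1) := by
    intro p hp
    rw [Finset.mem_filter] at hp
    rw [Finset.mem_union, Finset.mem_filter]
    by_cases hD : D < p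
    · exact Or.inl ⟨hp.1, h p hD hp.2⟩
    · exact Or.inr (Finset.mem_range.2 (by omega))
  have h2 := (Finset.card_le_card h1).trans (Finset.card_union_le _ _)
  rw [Finset.card_range] at h2
  exact_mod_cast h2

/-- the two counting functions differ by a bounded amount -/
lemma count_close {a : ℕ} {b : ℤ} (ha : 1 < a) (hb : |b| < a) (hab : IsCoprime (a : ℤ) b)
    {d : ℕ → Fin a} (hd : Special a b d) :
    ∃ D : ℕ, ∀ n : ℕ, (N a b d n : ℝ) ≤ count a b n + D ∧ (count a b n : ℝ) ≤ N a b d n + D := by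
  classical
  have hlt := abs_lt.1 hb
  have key : ∀ p : ℕ, ((a : ℤ) - b).natAbs < p → p.Prime →
      ((W a b d p).Prime ↔ Prime (((a : ℤ) ^ p - b ^ p) / ((a : ℤ) - b))) := by
    intro p hD hp
    have h3 : ¬ (p : ℤ) ∣ (a : ℤ) - b := by
      intro hd
      have h4 := Int.natAbs_dvd_natAbs.2 hd
      rw [Int.natAbs_natCast] at h4
      have h5 := Nat.le_of_dvd (Int.natAbs_pos.2 (by omega)) h4
      omega
    have hv := special_value ha hb hab hd p
    have hgeom : (∑ i ∈ Finset.range p, (a : ℤ) ^ i * b ^ (p - 1 - i)) * ((a : ℤ) - b) =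
      (a : ℤ) ^ p - b ^ p := (Commute.all (a : ℤ) b).geom_sum₂_mul p
    have hne : residue a b d p ≠ 0 := by
      intro h0
      rw [h0] at hv
      rw [← hv, Nat.cast_zero, zero_mul] at hgeom
      have h6 : |b ^ p| < (a : ℤ) ^ p := by
        rw [abs_pow]
        exact pow_lt_pow_left₀ hb (abs_nonneg b) hp.ne_zero
      have h7 := (abs_lt.1 h6).2
      linarith
    have h4 : W a b d p = residue a b d p :=
      Pool.Agent.W66L.rough_quot hab hp h3 hne hv
    rw [h4, ← hgeom, ← hv, Int.mul_ediv_cancel _ (by omega)]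
    exact Nat.prime_iff_prime_int
  refine ⟨((a : ℤ) - b).natAbs + 1, fun n => ⟨?_, ?_⟩⟩
  · exact card_le_of_eventually ((a : ℤ) - b).natAbs
      (fun p hD hp => ⟨hp.1, (key p hD hp.1).1 hp.2⟩) n
  · exact card_le_of_eventually ((a : ℤ) - b).natAbs
      (fun p hD hp => ⟨hp.1, (key p hD hp.1).2 hp.2⟩) n

theorem result :
    -- `-1 / (a - b)` has exactly one sequence of digits, the first digit is prime to `a`, and there
    -- the residues are the numbers `(a ^ p - b ^ p) / (a - b)`
    (∀ (a : ℕ) (b : ℤ), 1 < a → |b| < a → IsCoprime (a : ℤ) b →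
      (∃! d : ℕ → Fin a, Special a b d) ∧
      ∀ d : ℕ → Fin a, Special a b d → (d 0 : ℕ).Coprime a ∧
        ∀ p : ℕ, (residue a b d p : ℤ) * ((a : ℤ) - b) = (a : ℤ) ^ p - b ^ p) ∧
    -- the asymptotic law for the counting function of the pair is the law at this amplitude
    (∀ (a : ℕ) (b : ℤ), 1 < a → |b| < a → IsCoprime (a : ℤ) b →
      ∀ d : ℕ → Fin a, Special a b d → ∀ L : ℝ,
      (Tendsto (fun n : ℕ => (count a b n : ℝ) / Real.log n) atTop (𝓝 L) ↔
        Tendsto (fun n : ℕ => (N a b d n : ℝ) / Real.log n) atTop (𝓝 L))) ∧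
    -- the law for almost every `a`-adic amplitude, simultaneously for all `b`
    (∀ (a : ℕ) [NeZero a], 1 < a → ∀ᵐ d : ℕ → Fin a ∂haar a, (d 0 : ℕ).Coprime a →
      ∀ b : ℤ, |b| < a → IsCoprime (a : ℤ) b →
      (fun n : ℕ => (N a b d n : ℝ) -
        Real.exp Real.eulerMascheroniConstant / Real.log a * Real.log n) =O[atTop]
      (fun n : ℕ => Real.sqrt (Real.log n) * (Real.log (Real.log n)) ^ ((5 : ℝ) / 2))) := by
  refine ⟨fun a b ha hb hab => ⟨?_, fun d hd => ⟨first_digit hd, fun p => ?_⟩⟩,
    fun a b ha hb hab d hd L => ?_, ?_⟩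
  · obtain ⟨d, hd⟩ := Pool.Agent.K3h13.AD.digits_exist ha (coprime_sub hab)
    exact ⟨d, hd, fun e he => Pool.Agent.K3h13.AD.digits_unique (coprime_sub hab) he hd⟩
  · rw [special_value ha hb hab hd p]
    exact (Commute.all (a : ℤ) b).geom_sum₂_mul p
  · obtain ⟨D, hD⟩ := count_close ha hb hab hd
    constructor
    · exact fun h => Pool.Agent.K3h13.AD.transfer (P := (D : ℝ)) (fun n => (hD n).2)
        (fun n => (hD n).1) h
    · exact fun h => Pool.Agent.K3h13.AD.transfer (P := (D : ℝ)) (fun n => (hD n).1)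
        (fun n => (hD n).2) h
  · intro a _ ha
    have h : ∀ b : ℤ, ∀ᵐ d : ℕ → Fin a ∂haar a, |b| < a → IsCoprime (a : ℤ) b →
        (d 0 : ℕ).Coprime a → (fun n : ℕ => (N a b d n : ℝ) -
        Real.exp Real.eulerMascheroniConstant / Real.log a * Real.log n) =O[atTop]
      (fun n : ℕ => Real.sqrt (Real.log n) * (Real.log (Real.log n)) ^ ((5 : ℝ) / 2)) := by
      intro b
      by_cases hc : |b| < a ∧ IsCoprime (a : ℤ) b
      · have h1 := Pool.Agent.K3h13.AD.pt_int (μ := Pool.Agent.W66L.digitMeasure a) ha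
          (Pool.Agent.W66L.full_digits a) b hc.1 hc.2 Set.univ
        filter_upwards [h1] with d hd _ _ h0
        have h2 : (Pool.Agent.W66L.dsum a 1 d).Coprime a := by
          unfold Pool.Agent.W66L.dsum
          rw [Finset.sum_range_one, pow_zero, mul_one]
          exact h0
        obtain ⟨B, hB, h⟩ := (hd h2).law Pool.Agent.TH888.R.VS_univ_tendsto
        simp only [N_eq]
        exact Pool.Agent.TH888.R.bigO_all hB h
      · exact Eventually.of_forall fun d h1 h2 => absurd ⟨h1, h2⟩ hc
    filter_upwards [ae_all_iff.2 h] with d hd h0 b hb hab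
    exact hd b hb hab h0

end Pool.Agent.Results.MP_de9007_nt.AdicAmplitudes
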