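import Mathlib
import Pool.Agent.K3h13.AD.OB

set_option autoImplicit false

/-!
# Sets of exponents for almost every `a`-adic amplitude

Let `a > 1` be an integer and let `α` be an `a`-adic integer, given by its sequence of base-`a`
digits `d 0, d 1, …`, least significant first.  For an integer `b` prime to `a` with `|b| < a` and a
prime `p` let `W a b d p` be the `p`-rough part (the product, with multiplicity, of the prime
factors larger than `p`) of the residue of `b ^ p α` modulo `a ^ p` in `[0, a ^ p)`.  At the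
amplitude `α = -1 / (a - b)` this is `(a ^ p - b ^ p) / (a - b)` for all `p` prime to `a - b`.  We
prove a dichotomy for sets of exponents: for all sets `S 0, S 1, …` and almost every sequence of
digits whose first digit is prime to `a`, simultaneously for all `b` and `i`, there are infinitely
many primes `p` in `S i` with `W a b d p` prime if and only if the sum of `log p / p` over the
primes `p` in `S i` diverges.
-/

namespace Pool.Agent.Results.MP_de9007_nt.AdicExponentSets

open Filter Topology MeasureTheory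

/-- The product, with multiplicity, of the prime factors of `m` that are larger than `p`. -/
def roughPart (p m : ℕ) : ℕ := (m.primeFactorsList.filter (fun r => p < r)).prod

/-- The integer with the low digits `d 0, …, d (n - 1)` in base `a`, that is, the residue modulo
`a ^ n` of the `a`-adic integer with the digits `d`. -/
def low (a n : ℕ) (d : ℕ → Fin a) : ℕ := ∑ i ∈ Finset.range n, (d i : ℕ) * a ^ i

/-- The distribution of independent digits, each uniform on `{0, …, a - 1}`. -/
noncomputable def haar (a : ℕ) [NeZero a] : Measure (ℕ → Fin a) :=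
  Measure.infinitePi (fun _ : ℕ => ProbabilityTheory.uniformOn (Set.univ : Set (Fin a)))

/-- The residue in `[0, a ^ p)` modulo `a ^ p` of `b ^ p α`, where `α` has the digits `d`. -/
def residue (a : ℕ) (b : ℤ) (d : ℕ → Fin a) (p : ℕ) : ℕ :=
  ((b ^ p * low a p d) % (a : ℤ) ^ p).toNat

/-- The `p`-rough part of the residue. -/
def W (a : ℕ) (b : ℤ) (d : ℕ → Fin a) (p : ℕ) : ℕ := roughPart p (residue a b d p)

/-- The digits `d` are those of the `a`-adic number `-1 / (a - b)`. -/
def Special (a : ℕ) (b : ℤ) (d : ℕ → Fin a) : Prop :=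
  ∀ n : ℕ, (a : ℤ) ^ n ∣ ((a : ℤ) - b) * low a n d + 1

open Classical in
/-- The sum of `log p / p` over the primes `p ≤ n` in the set `S`. -/
noncomputable def V (S : Set ℕ) (n : ℕ) : ℝ :=
  ∑ p ∈ (Finset.range (n + 1)).filter (fun p => p.Prime ∧ p ∈ S), Real.log p / p

lemma V_eq (S : Set ℕ) : V S = Pool.Agent.TH888.R.VS S := by
  classical
  funext n
  unfold V Pool.Agent.TH888.R.VS
  rw [Finset.sum_filter]
  refine Finset.sum_congr rfl fun p _ => ?_
  by_cases h : p.Prime ∧ p ∈ S
  · rw [if_pos h, if_pos ⟨h.2, h.1⟩]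
    rfl
  · rw [if_neg h, if_neg fun h1 => h ⟨h1.2, h1.1⟩]

lemma coprime_sub {a : ℕ} {b : ℤ} (hab : IsCoprime (a : ℤ) b) :
    IsCoprime (a : ℤ) ((a : ℤ) - b) := by
  have h1 : IsCoprime (a : ℤ) (-b) := hab.neg_right
  have h2 := h1.add_mul_left_right 1
  have e : -b + (a : ℤ) * 1 = (a : ℤ) - b := by ring
  rwa [e] at h2

lemma first_digit {a : ℕ} {b : ℤ} {d : ℕ → Fin a} (hd : Special a b d) :
    (d 0 : ℕ).Coprime a := by
  have h := hd 1
  unfold low at h
  rw [Finset.sum_range_one, pow_zero, mul_one, pow_one] at h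
  have h2 : IsCoprime ((d 0 : ℕ) : ℤ) (a : ℤ) := by
    obtain ⟨k, hk⟩ := h
    exact ⟨-((a : ℤ) - b), k, by linear_combination -hk⟩
  exact Nat.isCoprime_iff_coprime.1 h2

/-- The value at the special digits. -/
lemma special {a : ℕ} {b : ℤ} (ha : 1 < a) (hb : |b| < a) (hab : IsCoprime (a : ℤ) b)
    {d : ℕ → Fin a} (hd : Special a b d) {p : ℕ} (hp : p.Prime) (hpd : ¬ (p : ℤ) ∣ (a : ℤ) - b) :
    (W a b d p : ℤ) * ((a : ℤ) - b) = (a : ℤ) ^ p - b ^ p := by
  have hv : (residue a b d p : ℤ) = ∑ i ∈ Finset.range p, (a : ℤ) ^ i * b ^ (p - 1 - i) :=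
    Pool.Agent.K3h13.AD.special_value ha hb hab (hd p)
  have hgeom : (∑ i ∈ Finset.range p, (a : ℤ) ^ i * b ^ (p - 1 - i)) * ((a : ℤ) - b) =
    (a : ℤ) ^ p - b ^ p := (Commute.all (a : ℤ) b).geom_sum₂_mul p
  have hne : residue a b d p ≠ 0 := by
    intro h0
    rw [h0] at hv
    rw [← hv, Nat.cast_zero, zero_mul] at hgeom
    have h6 : |b ^ p| < (a : ℤ) ^ p := by
      rw [abs_pow]
      exact pow_lt_pow_left₀ hb (abs_nonneg b) hp.ne_zero
    have h7 := (abs_lt.1 h6).2
    linarith
  have h4 : W a b d p = residue a b d p := Pool.Agent.W66L.rough_quot hab hp hpd hne hv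
  rw [h4, hv]
  exact hgeom

theorem result :
    -- `-1 / (a - b)` has exactly one sequence of digits, the first digit is prime to `a`, and there
    -- `W a b d p` is the number `(a ^ p - b ^ p) / (a - b)`
    (∀ (a : ℕ) (b : ℤ), 1 < a → |b| < a → IsCoprime (a : ℤ) b →
      (∃! d : ℕ → Fin a, Special a b d) ∧
      ∀ d : ℕ → Fin a, Special a b d → (d 0 : ℕ).Coprime a ∧
        ∀ p : ℕ, p.Prime → ¬ (p : ℤ) ∣ (a : ℤ) - b →
          (W a b d p : ℤ) * ((a : ℤ) - b) = (a : ℤ) ^ p - b ^ p) ∧
    -- the dichotomy for sets of exponents, simultaneously for all `b` and `i`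
    (∀ (a : ℕ) [NeZero a], 1 < a → ∀ S : ℕ → Set ℕ,
      ∀ᵐ d : ℕ → Fin a ∂haar a, (d 0 : ℕ).Coprime a →
      ∀ b : ℤ, |b| < a → IsCoprime (a : ℤ) b → ∀ i : ℕ,
      ({p : ℕ | p.Prime ∧ p ∈ S i ∧ (W a b d p).Prime}.Infinite ↔
        Tendsto (V (S i)) atTop atTop)) := by
  refine ⟨fun a b ha hb hab => ⟨?_, fun d hd => ⟨first_digit hd, fun p hp hpd =>
    special ha hb hab hd hp hpd⟩⟩, ?_⟩
  · obtain ⟨d, hd⟩ := Pool.Agent.K3h13.AD.digits_exist ha (coprime_sub hab)
    exact ⟨d, hd, fun e he => Pool.Agent.K3h13.AD.digits_unique (coprime_sub hab) he hd⟩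
  · intro a _ ha S
    have h : ∀ (b : ℤ) (i : ℕ), ∀ᵐ d : ℕ → Fin a ∂haar a, |b| < a → IsCoprime (a : ℤ) b →
        (d 0 : ℕ).Coprime a → ({p : ℕ | p.Prime ∧ p ∈ S i ∧ (W a b d p).Prime}.Infinite ↔
          Tendsto (V (S i)) atTop atTop) := by
      intro b i
      by_cases hc : |b| < a ∧ IsCoprime (a : ℤ) b
      · have h1 := Pool.Agent.K3h13.AD.pt_int (μ := Pool.Agent.W66L.digitMeasure a) ha
          (Pool.Agent.W66L.full_digits a) b hc.1 hc.2 (S i)
        filter_upwards [h1] with d hd _ _ h0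
        have h2 : (Pool.Agent.W66L.dsum a 1 d).Coprime a := by
          unfold Pool.Agent.W66L.dsum
          rw [Finset.sum_range_one, pow_zero, mul_one]
          exact h0
        have h3 := hd h2
        rw [V_eq]
        refine ⟨fun hi => ?_, fun ht => h3.inf ht⟩
        by_contra hn
        exact hi (h3.fin hn)
      · exact Eventually.of_forall fun d h1 h2 => absurd ⟨h1, h2⟩ hc
    filter_upwards [ae_all_iff.2 fun b => ae_all_iff.2 (h b)] with d hd h0 b hb hab i
    exact hd b i hb hab h0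

end Pool.Agent.Results.MP_de9007_nt.AdicExponentSets
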