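import Mathlib
import Pool.Agent.K3h13.PCO.PF
import Pool.Agent.H447R2.ML.Spec

set_option autoImplicit false

/-!
# Pair correlation of the exponents, in the mean over the real pairs `(a, b)`

For real `a > 1` and `b` with `|b| < a` and a prime `p` let `W a b p` be the `p`-rough part (the
product, with multiplicity, of the prime factors larger than `p`) of
`⌊(a ^ p - b ^ p) / (a - b)⌋`.  For coprime integers `a`, `b` and `p` prime to `a - b` this is the
number `(a ^ p - b ^ p) / (a - b)` itself.  The exponents of `(a, b)` are the primes `p` with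
`W a b p` prime.

We prove that in the mean over `(a, b)`, with respect to every continuous compactly supported weight on
`{a > 1, |b| < a}`, the number of the pairs of different exponents `p` in `(α z, β z]` and `q` in
`(γ z, δ z]` tends, as `z → ∞`, to its value for a Poisson process of intensity `e ^ C / log a` on the
logarithmic scale, `(e ^ C / log a) ^ 2 log (β / α) log (δ / γ)`, where `C` is Euler's constant.  More
generally, for arbitrary sets `S` and `S'` of primes, the mean number of the pairs with `p` in `S` and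
`q` in `S'` is `(e ^ C / log a) ^ 2 V V' + o(1)`, where `V` and `V'` are the sums of `log p / p` over all
primes of `S` in `(α z, β z]` and of `S'` in `(γ z, δ z]`.

Proof.  In the coordinates `x = log a`, `s = - log (1 - b / a)` the logarithm of
`(a ^ p - b ^ p) / (a - b)` is `p x + (s - x) + E_p (s)` with `E_p` and its derivative exponentially
small.  For two levels `p ≠ q` the corrections are removed by the substitution
`(x, s) ↦ (x + c (s), s + h (s))` with `c`, `h` and `h'` small.  A shift of `(x, s)` then moves the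
two arguments independently of each other, so the correlation of two levels that are not close is that
of the products of the window means, which are known (starting library), and a window of length
`|q - p| / (p + q)` gives an upper bound of the right order for close levels.
-/

namespace Pool.Agent.Results.MP_de9007_nt.PairCorrelation

open Filter Topology MeasureTheory

/-- The product, with multiplicity, of the prime factors of `m` that are larger than `p`. -/
def roughPart (p m : ℕ) : ℕ := (m.primeFactorsList.filter (fun r => p < r)).prod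

/-- The `p`-rough part of `⌊(a ^ p - b ^ p) / (a - b)⌋`. -/
noncomputable def W (a b : ℝ) (p : ℕ) : ℕ := roughPart p ⌊(a ^ p - b ^ p) / (a - b)⌋₊

open Classical in
/-- The set of the exponents of `(a, b)` in the set `S` and the interval `(u, v]`: the primes `p` in
`S` with `u < p ≤ v` for which `W a b p` is prime. -/
noncomputable def E (S : Set ℕ) (a b u v : ℝ) : Finset ℕ :=
  (Finset.Ioc ⌊u⌋₊ ⌊v⌋₊).filter (fun p => p.Prime ∧ p ∈ S ∧ (W a b p).Prime)

open Classical in
/-- The sum of `log p / p` over the primes `p` in `S` with `u < p ≤ v`. -/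
noncomputable def V (S : Set ℕ) (u v : ℝ) : ℝ :=
  ∑ p ∈ (Finset.Ioc ⌊u⌋₊ ⌊v⌋₊).filter (fun p => p.Prime ∧ p ∈ S), Real.log p / p

/-- The integer points. -/
lemma special {a b : ℤ} (hab : IsCoprime a b) (h1 : -a < b) (h2 : b < a) {p : ℕ} (hp : p.Prime)
    (hpd : ¬ (p : ℤ) ∣ a - b) : (W a b p : ℤ) * (a - b) = a ^ p - b ^ p := by
  have hne : (a : ℝ) - b ≠ 0 := by
    have : (b : ℝ) < a := by exact_mod_cast h2
    have h3 : 0 < (a : ℝ) - b := by linarith
    exact h3.ne'
  have h := Pool.Agent.H447R2.ML.rough_quot hab h1 h2 hp hpd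
    (x := ((a : ℝ) ^ p - (b : ℝ) ^ p) / ((a : ℝ) - b)) (by field_simp)
  have hgeom : (∑ i ∈ Finset.range p, a ^ i * b ^ (p - 1 - i)) * (a - b) = a ^ p - b ^ p :=
    (Commute.all a b).geom_sum₂_mul p
  rw [← h] at hgeom
  exact hgeom

lemma V_eq (S : Set ℕ) (u v : ℝ) : V S u v = ∑ p ∈ Pool.Agent.Y122.PC.Pr u v,
    S.indicator (fun _ => (1 : ℝ)) p * Pool.Agent.Y122.PC.w p := by
  classical
  unfold V Pool.Agent.Y122.PC.Pr Pool.Agent.Y122.PC.w
  rw [← Finset.filter_filter, Finset.sum_filter (p := fun p => p ∈ S)]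
  refine Finset.sum_congr rfl fun p _ => ?_
  by_cases h : p ∈ S
  · rw [if_pos h, Set.indicator_of_mem h, one_mul]
  · rw [if_neg h, Set.indicator_of_notMem h, zero_mul]

lemma card_eq (S S' : Set ℕ) (z : ℝ × ℝ) (u v u' v' : ℝ) :
    ((((E S z.1 z.2 u v) ×ˢ (E S' z.1 z.2 u' v')).filter (fun r => r.1 ≠ r.2)).card : ℝ) =
    ∑ p ∈ Pool.Agent.Y122.PC.Pr u v, ∑ q ∈ Pool.Agent.Y122.PC.Pr u' v',
      S.indicator (fun _ => (1 : ℝ)) p * S'.indicator (fun _ => (1 : ℝ)) q *
      if p ≠ q then Pool.Agent.K3h13.PCO.gg p z * Pool.Agent.K3h13.PCO.gg q z else 0 := by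
  classical
  have hE : ∀ (S : Set ℕ) (u v : ℝ), E S z.1 z.2 u v =
      (Pool.Agent.Y122.PC.Pr u v).filter (fun p => p ∈ S ∧ (W z.1 z.2 p).Prime) := by
    intro S u v
    unfold E Pool.Agent.Y122.PC.Pr
    rw [Finset.filter_filter]
  have hg : ∀ p, Pool.Agent.K3h13.PCO.gg p z = if (W z.1 z.2 p).Prime then 1 else 0 := fun p => rfl
  rw [hE, hE, ← Finset.sum_product', ← Finset.filter_product, Finset.filter_filter, Finset.card_filter]
  push_cast
  refine Finset.sum_congr rfl fun r _ => ?_
  rw [hg, hg]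
  by_cases h1 : r.1 ∈ S <;> by_cases h2 : r.2 ∈ S' <;> by_cases h3 : (W z.1 z.2 r.1).Prime <;>
    by_cases h4 : (W z.1 z.2 r.2).Prime <;> by_cases h5 : r.1 = r.2 <;>
    simp [h1, h2, h3, h4, h5]

/-- At the coprime integer points the values are the numbers of the question; the mean number of the
pairs of different exponents from two sets of primes; the limit for the set of all primes. -/
theorem result :
    (∀ a b : ℤ, IsCoprime a b → -a < b → b < a → ∀ p : ℕ, p.Prime → ¬ (p : ℤ) ∣ a - b →
      (W a b p : ℤ) * (a - b) = a ^ p - b ^ p) ∧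
    (∀ ω : ℝ × ℝ → ℝ, Continuous ω → HasCompactSupport ω →
      tsupport ω ⊆ {z | 1 < z.1 ∧ |z.2| < z.1} →
      ∀ α β γ δ : ℝ, 0 < α → α < β → 0 < γ → γ < δ → ∀ S S' : Set ℕ,
      Tendsto (fun t : ℝ =>
        (∫ z : ℝ × ℝ, ω z * (((E S z.1 z.2 (α * t) (β * t)) ×ˢ
          (E S' z.1 z.2 (γ * t) (δ * t))).filter (fun r => r.1 ≠ r.2)).card) -
        (∫ z : ℝ × ℝ, ω z * (Real.exp Real.eulerMascheroniConstant / Real.log z.1) ^ 2) *
          (V S (α * t) (β * t) * V S' (γ * t) (δ * t))) atTop (𝓝 0)) ∧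
    (∀ ω : ℝ × ℝ → ℝ, Continuous ω → HasCompactSupport ω →
      tsupport ω ⊆ {z | 1 < z.1 ∧ |z.2| < z.1} →
      ∀ α β γ δ : ℝ, 0 < α → α < β → 0 < γ → γ < δ →
      Tendsto (fun t : ℝ =>
        ∫ z : ℝ × ℝ, ω z * (((E Set.univ z.1 z.2 (α * t) (β * t)) ×ˢ
          (E Set.univ z.1 z.2 (γ * t) (δ * t))).filter (fun r => r.1 ≠ r.2)).card) atTop
        (𝓝 ((∫ z : ℝ × ℝ, ω z * (Real.exp Real.eulerMascheroniConstant / Real.log z.1) ^ 2) *
          (Real.log (β / α) * Real.log (δ / γ))))) := by
  have main : ∀ ω : ℝ × ℝ → ℝ, Continuous ω → HasCompactSupport ω →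
      tsupport ω ⊆ {z | 1 < z.1 ∧ |z.2| < z.1} →
      ∀ α β γ δ : ℝ, 0 < α → α < β → 0 < γ → γ < δ → ∀ S S' : Set ℕ,
      Tendsto (fun t : ℝ =>
        (∫ z : ℝ × ℝ, ω z * (((E S z.1 z.2 (α * t) (β * t)) ×ˢ
          (E S' z.1 z.2 (γ * t) (δ * t))).filter (fun r => r.1 ≠ r.2)).card) -
        (∫ z : ℝ × ℝ, ω z * (Real.exp Real.eulerMascheroniConstant / Real.log z.1) ^ 2) *
          (V S (α * t) (β * t) * V S' (γ * t) (δ * t))) atTop (𝓝 0) := by
    intro ω h1 h2 h3 α β γ δ hα hαβ hγ hγδ S S'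
    have h := Pool.Agent.K3h13.PCO.pairs h1 h2 h3 hα hαβ hγ hγδ S S'
    simp only [card_eq, V_eq, pow_two]
    exact h
  refine ⟨fun a b hab h1 h2 p hp hpd => special hab h1 h2 hp hpd, main, ?_⟩
  intro ω h1 h2 h3 α β γ δ hα hαβ hγ hγδ
  have h := main ω h1 h2 h3 α β γ δ hα hαβ hγ hγδ Set.univ Set.univ
  have hV : ∀ α β : ℝ, 0 < α → α < β → Tendsto (fun t : ℝ => V Set.univ (α * t) (β * t)) atTop
      (𝓝 (Real.log (β / α))) := by
    intro α β hα hαβ
    simp only [V_eq, Set.indicator_univ, one_mul]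
    exact Pool.Agent.Y122.PC.mertens hα hαβ
  have h' := ((hV α β hα hαβ).mul (hV γ δ hγ hγδ)).const_mul
    (∫ z : ℝ × ℝ, ω z * (Real.exp Real.eulerMascheroniConstant / Real.log z.1) ^ 2)
  have h4 := h.add h'
  rw [zero_add] at h4
  exact h4.congr fun t => by ring

end Pool.Agent.Results.MP_de9007_nt.PairCorrelation
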