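import Mathlib
import Pool.Agent.K3h13.RB.RF
import Pool.Agent.H447R2.ML.Spec

set_option autoImplicit false

/-!
# The generalized Lenstra-Pomerance-Wagstaff law for every integer `a` and almost every real `b`

For real `a > 1` and `b` with `|b| < a` and a prime `p` let `W a b p` be the `p`-rough part (the
product, with multiplicity, of the prime factors larger than `p`) of
`⌊(a ^ p - b ^ p) / (a - b)⌋`.  For coprime integers `a`, `b` and `p` prime to `a - b` this is the
number `(a ^ p - b ^ p) / (a - b)` itself.  For a set `S` let `M S a b n` be the number of primes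
`p ≤ n` in `S` with `W a b p` prime, and let `V S n` be the sum of `log p / p` over the primes
`p ≤ n` in `S`.  We prove that for almost every real `b` the following holds for every integer
`a > max 1 |b|`: the number of primes `p ≤ n` with `W a b p` prime is
`(e ^ γ / log a) log n + O((log n) ^ (1/2) (log log n) ^ (5/2))`.  For every set `S` and almost every
real `b`, for every integer `a > max 1 |b|` there are infinitely many such primes `p` in `S` if and
only if `V S n` is unbounded, and in this case
`M S a b n = (e ^ γ / log a) V S n + O((V L) ^ (1/2) (log (V L)) ^ 2)` with `V = V S n` and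
`L = log log n`.
-/

namespace Pool.Agent.Results.MP_de9007_nt.RealSecondEntry

open Filter Topology MeasureTheory Asymptotics

/-- The product, with multiplicity, of the prime factors of `m` that are larger than `p`. -/
def roughPart (p m : ℕ) : ℕ := (m.primeFactorsList.filter (fun r => p < r)).prod

/-- The `p`-rough part of `⌊(a ^ p - b ^ p) / (a - b)⌋`. -/
noncomputable def W (a b : ℝ) (p : ℕ) : ℕ := roughPart p ⌊(a ^ p - b ^ p) / (a - b)⌋₊

open Classical in
/-- The number of primes `p ≤ n` in the set `S` for which `W a b p` is prime. -/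
noncomputable def M (S : Set ℕ) (a b : ℝ) (n : ℕ) : ℕ :=
  ((Finset.range (n + 1)).filter (fun p => p.Prime ∧ p ∈ S ∧ (W a b p).Prime)).card

open Classical in
/-- The sum of `log p / p` over the primes `p ≤ n` in the set `S`. -/
noncomputable def V (S : Set ℕ) (n : ℕ) : ℝ :=
  ∑ p ∈ (Finset.range (n + 1)).filter (fun p => p.Prime ∧ p ∈ S), Real.log p / p

lemma V_eq (S : Set ℕ) (n : ℕ) : V S n = Pool.Agent.TH888.R.VS S n := by
  classical
  unfold V Pool.Agent.TH888.R.VS
  rw [Finset.sum_filter]
  refine Finset.sum_congr rfl fun p _ => ?_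
  by_cases h : p.Prime ∧ p ∈ S
  · rw [if_pos h, if_pos ⟨h.2, h.1⟩]
    rfl
  · rw [if_neg h, if_neg fun h1 => h ⟨h1.2, h1.1⟩]

/-- The integer points. -/
lemma special {a b : ℤ} (hab : IsCoprime a b) (h1 : -a < b) (h2 : b < a) {p : ℕ} (hp : p.Prime)
    (hpd : ¬ (p : ℤ) ∣ a - b) : (W a b p : ℤ) * (a - b) = a ^ p - b ^ p := by
  have hne : (a : ℝ) - b ≠ 0 := by
    have : (b : ℝ) < a := by exact_mod_cast h2
    have h3 : 0 < (a : ℝ) - b := by linarith
    exact h3.ne'
  have h := Pool.Agent.H447R2.ML.rough_quot hab h1 h2 hp hpd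
    (x := ((a : ℝ) ^ p - (b : ℝ) ^ p) / ((a : ℝ) - b)) (by field_simp)
  have hgeom : (∑ i ∈ Finset.range p, a ^ i * b ^ (p - 1 - i)) * (a - b) = a ^ p - b ^ p :=
    (Commute.all a b).geom_sum₂_mul p
  rw [← h] at hgeom
  exact hgeom

lemma M_eq (S : Set ℕ) (a b : ℝ) (n : ℕ) :
    M S a b n = Pool.Agent.TH888.R.cS S (fun p => ⌊(a ^ p - b ^ p) / (a - b)⌋₊) n := by
  classical
  unfold M Pool.Agent.TH888.R.cS
  rfl

lemma pt (S : Set ℕ) : ∀ᵐ b : ℝ, ∀ a : ℕ, 1 < a → |b| < a → Pool.Agent.TH888.R.Pt
    (fun p => ⌊((a : ℝ) ^ p - b ^ p) / (a - b)⌋₊)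
      (Real.exp Real.eulerMascheroniConstant / Real.log a) S := by
  rw [ae_all_iff]
  intro a
  by_cases ha : 1 < a
  · filter_upwards [Pool.Agent.K3h13.RB.pt_second (show 2 ≤ a by omega) S] with b hb _ h
    exact hb h
  · exact Eventually.of_forall fun b h => absurd h ha

/-- At the coprime integer points the values are the numbers of the question.  For almost every real
`b` and every integer `a > max 1 |b|` the law holds with a square root error term; for every set of
primes, almost every real `b` and every integer `a > max 1 |b|` the number of prime values is finite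
or infinite according to the weight of the set, and in the second case it obeys the corresponding
law. -/
theorem result :
    (∀ a b : ℤ, IsCoprime a b → -a < b → b < a → ∀ p : ℕ, p.Prime → ¬ (p : ℤ) ∣ a - b →
      (W a b p : ℤ) * (a - b) = a ^ p - b ^ p) ∧
    (∀ᵐ b : ℝ, ∀ a : ℕ, 1 < a → |b| < a →
      (fun n : ℕ => (M Set.univ a b n : ℝ) -
        Real.exp Real.eulerMascheroniConstant / Real.log a * Real.log n) =O[atTop]
      (fun n : ℕ => Real.sqrt (Real.log n) * (Real.log (Real.log n)) ^ ((5 : ℝ) / 2))) ∧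
    (∀ S : Set ℕ, Tendsto (V S) atTop atTop → ∀ᵐ b : ℝ, ∀ a : ℕ, 1 < a → |b| < a →
      (fun n : ℕ => (M S a b n : ℝ) -
        Real.exp Real.eulerMascheroniConstant / Real.log a * V S n) =O[atTop]
      (fun n : ℕ => Real.sqrt (V S n * Real.log (Real.log n)) *
        (Real.log (V S n * Real.log (Real.log n))) ^ 2)) ∧
    (∀ S : Set ℕ, ∀ᵐ b : ℝ, ∀ a : ℕ, 1 < a → |b| < a →
      ({p : ℕ | p.Prime ∧ p ∈ S ∧ (W a b p).Prime}.Infinite ↔ Tendsto (V S) atTop atTop)) := by
  have hV : ∀ S, V S = Pool.Agent.TH888.R.VS S := fun S => funext fun n => V_eq S n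
  refine ⟨fun a b hab h1 h2 p hp hpd => special hab h1 h2 hp hpd, ?_, fun S hS => ?_, fun S => ?_⟩
  · filter_upwards [pt Set.univ] with b hb a ha h0
    obtain ⟨B, hB, h⟩ := (hb a ha h0).law Pool.Agent.TH888.R.VS_univ_tendsto
    simp only [M_eq]
    exact Pool.Agent.TH888.R.bigO_all hB h
  · rw [hV] at hS ⊢
    filter_upwards [pt S] with b hb a ha h0
    obtain ⟨B, hB, h⟩ := (hb a ha h0).law hS
    simp only [M_eq]
    exact Pool.Agent.TH888.R.bigO_set hB hS h
  · rw [hV]
    filter_upwards [pt S] with b hb a ha h0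
    constructor
    · intro hi
      by_contra hn
      exact hi ((hb a ha h0).fin hn)
    · exact (hb a ha h0).inf

end Pool.Agent.Results.MP_de9007_nt.RealSecondEntry
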